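import Mathlib

set_option autoImplicit false

/-!
A regular CIS graph with 80 vertices which is connected, well-covered and irreducible, whose
complement is connected, well-covered and irreducible, and which is not vertex-transitive.

Take a cubic triangle-free graph `D` with 10 vertices and a proper 3-edge-colouring. Replace each
vertex `v` of `D` by a clique with vertices `(v, σ)`, `σ ∈ {0,1}^3`, and for an edge `v w` of colour
`c` join `(v, σ)` and `(w, τ)` when `σ` and `τ` agree in the coordinate `c`.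
-/

namespace Pool.Agent.Results.MP_509871_co.NotTransitive

/-- `K` is an inclusion-maximal clique -/
def MaxClique {V : Type} (G : SimpleGraph V) (K : Set V) : Prop :=
  Maximal (fun K : Set V => G.IsClique K) K

/-- `S` is an inclusion-maximal stable set -/
def MaxStable {V : Type} (G : SimpleGraph V) (S : Set V) : Prop :=
  Maximal (fun S : Set V => G.IsIndepSet S) S

/-- every maximal clique meets every maximal stable set -/
def IsCIS {V : Type} (G : SimpleGraph V) : Prop :=
  ∀ K S : Set V, MaxClique G K → MaxStable G S → (K ∩ S).Nonempty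

/-- all maximal stable sets have the same size -/
def WellCovered {V : Type} (G : SimpleGraph V) : Prop :=
  ∀ S T : Set V, MaxStable G S → MaxStable G T → S.ncard = T.ncard

/-- distinct vertices have distinct neighbourhoods -/
def Irreducible {V : Type} (G : SimpleGraph V) : Prop :=
  ∀ u v : V, u ≠ v → G.neighborSet u ≠ G.neighborSet v

/-- all vertices have the same degree -/
def Regular {V : Type} (G : SimpleGraph V) : Prop :=
  ∀ u v : V, (G.neighborSet u).ncard = (G.neighborSet v).ncard

/-- any vertex is mapped to any other vertex by some automorphism -/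
def VertexTransitive {V : Type} (G : SimpleGraph V) : Prop :=
  ∀ u v : V, ∃ φ : G ≃g G, φ u = v

open Finset

/-! ### The graph -/

/-- the three colour classes of the cubic graph -/
def f (c : Fin 3) (v : Fin 10) : Fin 10 :=
  (![![1, 0, 3, 2, 5, 4, 7, 6, 9, 8], ![8, 6, 9, 4, 3, 7, 1, 5, 0, 2],
    ![3, 2, 1, 0, 6, 8, 4, 9, 5, 7]] : Fin 3 → Fin 10 → Fin 10) c v

/-- the coordinates of a label -/
def bit (c : Fin 3) (σ : Bool × Bool × Bool) : Bool :=
  (![σ.1, σ.2.1, σ.2.2] : Fin 3 → Bool) c

abbrev Vt := Fin 10 × (Bool × Bool × Bool)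

/-- adjacency -/
def adj (x y : Vt) : Prop :=
  (x.1 = y.1 ∧ x.2 ≠ y.2) ∨ ∃ c : Fin 3, y.1 = f c x.1 ∧ bit c x.2 = bit c y.2

instance : DecidableRel adj := fun x y =>
  inferInstanceAs (Decidable ((x.1 = y.1 ∧ x.2 ≠ y.2) ∨ ∃ c : Fin 3, y.1 = f c x.1 ∧
    bit c x.2 = bit c y.2))

lemma f_f : ∀ c v, f c (f c v) = v := by decide
lemma f_ne : ∀ c v, f c v ≠ v := by decide
lemma f_inj : ∀ c c' v, f c v = f c' v → c = c' := by decide
lemma f_tri : ∀ c c' c'' v, f c' (f c v) ≠ f c'' v := by decide

/-- the graph -/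
def G : SimpleGraph Vt where
  Adj := adj
  symm := ⟨by
    rintro x y (h | ⟨c, h1, h2⟩)
    · exact Or.inl ⟨h.1.symm, h.2.symm⟩
    · exact Or.inr ⟨c, by rw [h1, f_f], h2.symm⟩⟩
  loopless := ⟨by
    rintro x (h | ⟨c, h1, h2⟩)
    · exact h.2 rfl
    · exact f_ne c x.1 h1.symm⟩

instance : DecidableRel G.Adj := fun x y => inferInstanceAs (Decidable (adj x y))

lemma bit_ext : ∀ σ τ : Bool × Bool × Bool, (∀ c, bit c σ = bit c τ) → σ = τ := by decide

lemma exists_bit (t : Fin 3 → Bool) : ∃ σ : Bool × Bool × Bool, ∀ c, bit c σ = t c :=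
  ⟨(t 0, t 1, t 2), fun c => by fin_cases c <;> rfl⟩

lemma stable_insert {V : Type} {G : SimpleGraph V} {S : Set V} (hS : MaxStable G S) {v : V}
    (h : ∀ u ∈ S, ¬ G.Adj v u) : v ∈ S := by
  have h1 : G.IsIndepSet (insert v S) := by
    intro x hx y hy hxy
    rcases hx with rfl | hx <;> rcases hy with rfl | hy
    · exact absurd rfl hxy
    · exact h y hy
    · exact fun h' => h x hx h'.symm
    · exact hS.1 hx hy hxy
  exact hS.2 h1 (Set.subset_insert _ _) (Set.mem_insert _ _)

/-- a maximal stable set meets every level -/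
lemma level {S : Set Vt} (hS : MaxStable G S) (v : Fin 10) : ∃ σ, (v, σ) ∈ S := by
  by_contra hcon
  push Not at hcon
  classical
  obtain ⟨σ, hσ⟩ := exists_bit (fun c => if h : ∃ τ, (f c v, τ) ∈ S then !(bit c h.choose) else true)
  apply hcon σ
  apply stable_insert hS
  rintro ⟨w, τ⟩ hw (⟨h1, -⟩ | ⟨c, h1, h2⟩)
  · simp only at h1
    subst h1
    exact hcon τ hw
  · simp only at h1 h2
    subst h1
    have hex : ∃ τ, (f c v, τ) ∈ S := ⟨τ, hw⟩
    have h3 : τ = hex.choose := by
      by_contra hne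
      exact hS.1 hw hex.choose_spec (fun h => hne (congrArg Prod.snd h)) (Or.inl ⟨rfl, hne⟩)
    have h4 := hσ c
    rw [dif_pos hex, ← h3, h2] at h4
    exact absurd h4 (by cases bit c τ <;> decide)

lemma level_unique {S : Set Vt} (hS : MaxStable G S) {v : Fin 10} {σ τ : Bool × Bool × Bool}
    (h1 : (v, σ) ∈ S) (h2 : (v, τ) ∈ S) : σ = τ := by
  by_contra hne
  exact hS.1 h1 h2 (fun h => hne (congrArg Prod.snd h)) (Or.inl ⟨rfl, hne⟩)

lemma stable_card {S : Set Vt} (hS : MaxStable G S) : S.ncard = 10 := by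
  choose σ hσ using level hS
  have h1 : S = Set.range (fun v => (v, σ v)) := by
    ext ⟨v, τ⟩
    constructor
    · intro h
      exact ⟨v, by rw [level_unique hS h (hσ v)]⟩
    · rintro ⟨w, hw⟩
      rw [← hw]
      exact hσ w
  rw [h1, ← Set.image_univ, Set.ncard_image_of_injective _ (fun a b h => congrArg Prod.fst h),
    Set.ncard_univ, Nat.card_eq_fintype_card, Fintype.card_fin]

/-- the level of `v` -/
def lev (v : Fin 10) : Finset Vt := univ.filter (fun x => x.1 = v)

/-- the clique of an edge -/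
def ecl (v : Fin 10) (c : Fin 3) (b : Bool) : Finset Vt :=
  univ.filter (fun x => (x.1 = v ∨ x.1 = f c v) ∧ bit c x.2 = b)

lemma lev_card : ∀ v, (lev v).card = 8 := by decide +kernel
lemma ecl_card : ∀ v c b, (ecl v c b).card = 8 := by decide +kernel

lemma lev_clique (v : Fin 10) : G.IsClique (lev v : Set Vt) := by
  rintro ⟨x, σ⟩ hx ⟨y, τ⟩ hy hne
  rw [mem_coe, lev, mem_filter] at hx hy
  obtain ⟨-, hx⟩ := hx
  obtain ⟨-, hy⟩ := hy
  simp only at hx hy
  subst hx hy
  exact Or.inl ⟨rfl, fun h => hne (by rw [show σ = τ from h])⟩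

lemma ecl_clique (v : Fin 10) (c : Fin 3) (b : Bool) : G.IsClique (ecl v c b : Set Vt) := by
  rintro ⟨x, σ⟩ hx ⟨y, τ⟩ hy hne
  rw [mem_coe, ecl, mem_filter] at hx hy
  obtain ⟨-, hx1, hx2⟩ := hx
  obtain ⟨-, hy1, hy2⟩ := hy
  simp only at hx1 hx2 hy1 hy2
  rcases hx1 with rfl | rfl <;> rcases hy1 with rfl | rfl
  · exact Or.inl ⟨rfl, fun h => hne (by rw [show σ = τ from h])⟩
  · exact Or.inr ⟨c, rfl, hx2.trans hy2.symm⟩
  · exact Or.inr ⟨c, (f_f c _).symm, hx2.trans hy2.symm⟩
  · exact Or.inl ⟨rfl, fun h => hne (by rw [show σ = τ from h])⟩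

/-- the maximal cliques -/
lemma clique_cases {K : Set Vt} (hK : MaxClique G K) :
    (∃ v, K = (lev v : Set Vt)) ∨ ∃ v c b, K = (ecl v c b : Set Vt) := by
  have hKc : ∀ x ∈ K, ∀ y ∈ K, x ≠ y → adj x y := fun x hx y hy h => hK.1 hx hy h
  obtain ⟨⟨v, σ⟩, hx⟩ : K.Nonempty := by
    rw [Set.nonempty_iff_ne_empty]
    intro h
    have h1 := hK.2 (lev_clique 0) (by rw [h]; exact Set.empty_subset _)
    have h2 : ((0, (true, true, true)) : Vt) ∈ (lev 0 : Set Vt) := by
      rw [mem_coe, lev, mem_filter]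
      exact ⟨mem_univ _, rfl⟩
    have h3 := h1 h2
    rw [h] at h3
    exact h3
  by_cases hall : ∀ y ∈ K, y.1 = v
  · left
    refine ⟨v, ?_⟩
    have hsub : K ⊆ (lev v : Set Vt) := by
      intro y hy
      rw [mem_coe, lev, mem_filter]
      exact ⟨mem_univ _, hall y hy⟩
    exact Set.Subset.antisymm hsub (hK.2 (lev_clique v) hsub)
  · right
    push Not at hall
    obtain ⟨⟨w, τ⟩, hy, hne⟩ := hall
    simp only at hne
    obtain ⟨c, hc1, hc2⟩ : ∃ c, w = f c v ∧ bit c σ = bit c τ := by
      rcases hKc _ hx _ hy (fun h => hne (congrArg Prod.fst h).symm) with h | ⟨c, h1, h2⟩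
      · exact absurd h.1.symm hne
      · exact ⟨c, h1, h2⟩
    subst hc1
    refine ⟨v, c, bit c σ, ?_⟩
    have hsub : K ⊆ (ecl v c (bit c σ) : Set Vt) := by
      rintro ⟨u, ρ⟩ hz
      rw [mem_coe, ecl, mem_filter]
      refine ⟨mem_univ _, ?_⟩
      by_cases h1 : u = v
      · subst h1
        refine ⟨Or.inl rfl, ?_⟩
        rcases hKc _ hz _ hy (fun h => f_ne c u (congrArg Prod.fst h).symm) with h | ⟨c', h2, h3⟩
        · exact absurd h.1.symm (f_ne c u)
        · simp only at h2 h3
          have h4 := f_inj _ _ _ h2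
          subst h4
          exact h3.trans hc2.symm
      · by_cases h2 : u = f c v
        · subst h2
          refine ⟨Or.inr rfl, ?_⟩
          rcases hKc _ hx _ hz (fun h => h1 (congrArg Prod.fst h).symm) with h | ⟨c', h3, h4⟩
          · exact absurd h.1.symm h1
          · simp only at h3 h4
            have h5 := f_inj _ _ _ h3
            subst h5
            exact h4.symm
        · exfalso
          rcases hKc _ hx _ hz (fun h => h1 (congrArg Prod.fst h).symm) with h | ⟨c', h3, -⟩
          · exact h1 h.1.symm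
          · rcases hKc _ hy _ hz (fun h => h2 (congrArg Prod.fst h).symm) with h | ⟨c'', h4, -⟩
            · exact h2 h.1.symm
            · simp only at h3 h4
              exact f_tri c c'' c' v (h4.symm.trans h3)
    exact Set.Subset.antisymm hsub (hK.2 (ecl_clique v c _) hsub)

lemma clique_card {K : Set Vt} (hK : MaxClique G K) : K.ncard = 8 := by
  rcases clique_cases hK with ⟨v, rfl⟩ | ⟨v, c, b, rfl⟩
  · rw [Set.ncard_coe_finset, lev_card]
  · rw [Set.ncard_coe_finset, ecl_card]

lemma cis : IsCIS G := by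
  intro K S hK hS
  rcases clique_cases hK with ⟨v, rfl⟩ | ⟨v, c, b, rfl⟩
  · obtain ⟨σ, hσ⟩ := level hS v
    refine ⟨_, ?_, hσ⟩
    rw [mem_coe, lev, mem_filter]
    exact ⟨mem_univ _, rfl⟩
  · obtain ⟨σ, hσ⟩ := level hS v
    obtain ⟨τ, hτ⟩ := level hS (f c v)
    by_cases h : bit c σ = b
    · refine ⟨_, ?_, hσ⟩
      rw [mem_coe, ecl, mem_filter]
      exact ⟨mem_univ _, Or.inl rfl, h⟩
    · refine ⟨_, ?_, hτ⟩
      rw [mem_coe, ecl, mem_filter]
      refine ⟨mem_univ _, Or.inr rfl, ?_⟩
      have h1 : ¬ G.Adj (v, σ) (f c v, τ) :=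
        hS.1 hσ hτ (fun h => f_ne c v (congrArg Prod.fst h).symm)
      have h2 : bit c σ ≠ bit c τ := fun h => h1 (Or.inr ⟨c, rfl, h⟩)
      revert h h2
      cases bit c σ <;> cases bit c τ <;> cases b <;> simp

lemma degree : ∀ x : Vt, (univ.filter (fun y => adj x y)).card = 19 := by decide +kernel

/-- `z` is adjacent to `x`, but not equal or adjacent to `y` -/
def dis (x y z : Vt) : Bool := decide (z ≠ y) && decide (adj x z) && !decide (adj y z)

lemma irr' : ∀ x y : Vt, x ≠ y → ∃ z : Vt, dis x y z = true := by decide +kernel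

lemma irr (x y : Vt) (h : x ≠ y) : ∃ z : Vt, z ≠ y ∧ adj x z ∧ ¬ adj y z := by
  obtain ⟨z, hz⟩ := irr' x y h
  rw [dis, Bool.and_eq_true, Bool.and_eq_true, Bool.not_eq_true', decide_eq_true_eq,
    decide_eq_true_eq, decide_eq_false_iff_not] at hz
  exact ⟨z, hz.1.1, hz.1.2, hz.2⟩

/-- the vertices at distance at most two -/
def ball (x : Vt) : Finset Vt := univ.filter (fun z => ∃ y, (y = x ∨ adj x y) ∧ (z = y ∨ adj y z))

lemma ball_card0 : (ball (0, (true, true, true))).card = 72 := by decide +kernel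
lemma ball_card5 : (ball (5, (true, true, true))).card = 64 := by decide +kernel

lemma regular : Regular G := by
  have key : ∀ u : Vt, (G.neighborSet u).ncard = 19 := by
    intro u
    have h1 : G.neighborSet u = ((univ.filter (fun y => adj u y) : Finset Vt) : Set Vt) := by
      ext y
      rw [mem_coe, mem_filter]
      exact ⟨fun h => ⟨mem_univ _, h⟩, fun h => h.2⟩
    rw [h1, Set.ncard_coe_finset, degree]
  intro u v
  rw [key, key]

lemma irreducible : Irreducible G := by
  intro u v huv h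
  obtain ⟨z, -, hz1, hz2⟩ := irr u v huv
  have h1 : z ∈ G.neighborSet u := hz1
  rw [h] at h1
  exact hz2 h1

lemma irreducible_compl : Irreducible Gᶜ := by
  intro u v huv h
  obtain ⟨z, hzv, hz1, hz2⟩ := irr u v huv
  have h1 : z ∈ Gᶜ.neighborSet v := by
    rw [SimpleGraph.mem_neighborSet, SimpleGraph.compl_adj]
    exact ⟨hzv.symm, hz2⟩
  rw [← h, SimpleGraph.mem_neighborSet, SimpleGraph.compl_adj] at h1
  exact h1.2 hz1

lemma connected : G.Connected := by
  have step : ∀ c v, G.Adj (v, (true, true, true)) (f c v, (true, true, true)) :=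
    fun c v => Or.inr ⟨c, rfl, rfl⟩
  have hpath : ∀ v : Fin 10, v = 0 ∨ ∃ c1, v = f c1 0 ∨ ∃ c2, v = f c2 (f c1 0) ∨
      ∃ c3, v = f c3 (f c2 (f c1 0)) := by decide
  have hv : ∀ v, G.Reachable (0, (true, true, true)) (v, (true, true, true)) := by
    intro v
    rcases hpath v with rfl | ⟨c1, rfl | ⟨c2, rfl | ⟨c3, rfl⟩⟩⟩
    · exact SimpleGraph.Reachable.refl _
    · exact (step _ _).reachable
    · exact (step _ _).reachable.trans (step _ _).reachable
    · exact ((step _ _).reachable.trans (step _ _).reachable).trans (step _ _).reachable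
  have hx : ∀ x : Vt, G.Reachable (0, (true, true, true)) x := by
    rintro ⟨v, σ⟩
    refine (hv v).trans ?_
    by_cases h : (true, true, true) = σ
    · rw [h]
    · exact SimpleGraph.Adj.reachable (Or.inl ⟨rfl, h⟩)
  have : Nonempty Vt := ⟨(0, (true, true, true))⟩
  exact SimpleGraph.Connected.mk (fun x y => (hx x).symm.trans (hx y))

lemma connected_compl : Gᶜ.Connected := by
  have hu : ∀ v w : Fin 10, ∃ u, u ≠ v ∧ u ≠ w ∧ ∀ c, u ≠ f c v ∧ u ≠ f c w := by decide
  have : Nonempty Vt := ⟨(0, (true, true, true))⟩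
  refine SimpleGraph.Connected.mk ?_
  rintro ⟨v, σ⟩ ⟨w, τ⟩
  obtain ⟨u, h1, h2, h3⟩ := hu v w
  have key : ∀ x σ, u ≠ x → (∀ c, u ≠ f c x) → Gᶜ.Adj (x, σ) (u, (true, true, true)) := by
    intro x σ h4 h5
    rw [SimpleGraph.compl_adj]
    refine ⟨fun h => h4 (congrArg Prod.fst h).symm, ?_⟩
    rintro (h | ⟨c, h, -⟩)
    · exact h4 h.1.symm
    · exact h5 c h
  exact (key v σ h1 (fun c => (h3 c).1)).reachable.trans
    (key w τ h2 (fun c => (h3 c).2)).symm.reachable

lemma wellCovered : WellCovered G := fun S T hS hT => by rw [stable_card hS, stable_card hT]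

lemma wellCovered_compl : WellCovered Gᶜ := by
  have key : ∀ S : Set Vt, MaxStable Gᶜ S → MaxClique G S := by
    intro S hS
    refine ⟨(SimpleGraph.isIndepSet_compl G).1 hS.1, fun T hT hST => ?_⟩
    exact hS.2 ((SimpleGraph.isIndepSet_compl G).2 hT) hST
  intro S T hS hT
  rw [clique_card (key S hS), clique_card (key T hT)]

lemma not_transitive : ¬ VertexTransitive G := by
  intro h
  obtain ⟨φ, hφ⟩ := h (0, (true, true, true)) (5, (true, true, true))
  have h1 : (ball (0, (true, true, true))).map φ.toEquiv.toEmbedding ⊆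
      ball (5, (true, true, true)) := by
    intro z hz
    rw [mem_map] at hz
    obtain ⟨x, hx, rfl⟩ := hz
    rw [ball, mem_filter] at hx ⊢
    obtain ⟨-, y, hy1, hy2⟩ := hx
    refine ⟨mem_univ _, φ y, ?_, ?_⟩
    · rcases hy1 with hy1 | hy1
      · left
        rw [hy1, hφ]
      · right
        rw [← hφ]
        exact φ.map_adj_iff.2 hy1
    · rcases hy2 with hy2 | hy2
      · left
        rw [hy2]
        rfl
      · right
        exact φ.map_adj_iff.2 hy2
  have h2 := card_le_card h1
  rw [card_map, ball_card0, ball_card5] at h2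
  omega

/-- **The answer to Q1 is no.** There is a graph with 80 vertices (regular of degree 19) which is a
regular CIS graph, such that the graph and its complement are both connected, both well-covered and
both irreducible, and which is not vertex-transitive. -/
theorem result : ∃ (V : Type) (_ : Fintype V) (G : SimpleGraph V), Fintype.card V = 80 ∧
    IsCIS G ∧ Regular G ∧ (G.Connected ∧ Gᶜ.Connected) ∧ (WellCovered G ∧ WellCovered Gᶜ) ∧
    (Irreducible G ∧ Irreducible Gᶜ) ∧ ¬ VertexTransitive G :=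
  ⟨Vt, inferInstance, G, rfl, cis, regular, ⟨connected, connected_compl⟩,
    ⟨wellCovered, wellCovered_compl⟩, ⟨irreducible, irreducible_compl⟩, not_transitive⟩

end Pool.Agent.Results.MP_509871_co.NotTransitive
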